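import Pool.Agent.H57.ML.Targets

/-!
# Multi-layer Meyniel (MP_6ecee4_co): module EN (energy inequality)
-/

namespace H18.ML

open scoped BigOperators
open Finset
open Classical
open H57.ML

/-- Cauchy-Schwarz (Titu's lemma) with possibly vanishing denominators. -/
theorem titu {V : Type} [Fintype V] (w b : V → ℝ) (hb : ∀ y, 0 ≤ b y)
    (hw : ∀ y, b y = 0 → w y = 0) :
    (∑ y, |w y|) ^ 2 ≤ (∑ y, b y) * ∑ y, w y ^ 2 / b y := by
  have h := Finset.sum_mul_sq_le_sq_mul_sq (univ : Finset V) (fun y => Real.sqrt (b y))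
    (fun y => |w y| / Real.sqrt (b y))
  have e1 : ∀ y, Real.sqrt (b y) * (|w y| / Real.sqrt (b y)) = |w y| := by
    intro y
    rcases eq_or_ne (b y) 0 with h0 | h0
    · simp [h0, hw y h0]
    · have : Real.sqrt (b y) ≠ 0 := by
        rw [Real.sqrt_ne_zero (hb y)]; exact h0
      field_simp
  have e2 : ∀ y, Real.sqrt (b y) ^ 2 = b y := fun y => Real.sq_sqrt (hb y)
  have e3 : ∀ y, (|w y| / Real.sqrt (b y)) ^ 2 = w y ^ 2 / b y := by
    intro y
    rw [div_pow, e2, sq_abs]
  simp only [e1, e2, e3] at h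
  exact h

/-- the increment of `(a - a')^2 / (a + a')` under a refinement, for one edge. -/
theorem edge_ineq {V : Type} [Fintype V] (D : ℝ) (hD : 1 ≤ D) (p q ξ ζ : V → ℝ) (P Q tP tQ : ℝ)
    (hp : ∀ y, 0 ≤ p y) (hq : ∀ y, 0 ≤ q y) (hP : P = ∑ y, p y) (hQ : Q = ∑ y, q y)
    (hξ0 : ∀ y, 0 ≤ ξ y) (hζ0 : ∀ y, 0 ≤ ζ y) (hξ1 : ∑ y, ξ y = 1) (hζ1 : ∑ y, ζ y = 1)
    (hξ : ∀ y, P * ξ y = p y) (hζ : ∀ y, Q * ζ y = q y) (htP : 0 ≤ tP) (htQ : 0 ≤ tQ)
    (h1 : 1 / (2 * D) * (P - tP) ≤ Q) (h2 : 1 / (2 * D) * (Q - tQ) ≤ P) :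
    (P + Q) * (∑ y, |ξ y - ζ y|) ^ 2 ≤
      64 * D ^ 2 * (∑ y, (p y - q y) ^ 2 / (p y + q y) - (P - Q) ^ 2 / (P + Q)) +
        16 * (tP + tQ) := by
  have hP0 : 0 ≤ P := by rw [hP]; exact sum_nonneg fun y _ => hp y
  have hQ0 : 0 ≤ Q := by rw [hQ]; exact sum_nonneg fun y _ => hq y
  have hsum : P + Q = ∑ y, (p y + q y) := by rw [hP, hQ, sum_add_distrib]
  set n1 : ℝ := ∑ y, |ξ y - ζ y| with hn1
  have hn0 : 0 ≤ n1 := sum_nonneg fun y _ => abs_nonneg _
  have hn2 : n1 ≤ 2 := by
    calc n1 ≤ ∑ y, (ξ y + ζ y) := by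
          apply sum_le_sum
          intro y _
          rw [abs_le]
          constructor <;> linarith [hξ0 y, hζ0 y]
      _ = 2 := by rw [sum_add_distrib, hξ1, hζ1]; norm_num
  have hnsq : n1 ^ 2 ≤ 4 := by nlinarith
  rcases eq_or_lt_of_le (add_nonneg hP0 hQ0) with hb | hb
  · -- everything vanishes
    have hP' : P = 0 := by linarith
    have hQ' : Q = 0 := by linarith
    have hp' : ∀ y, p y = 0 := fun y => by rw [← hξ y, hP', zero_mul]
    have hq' : ∀ y, q y = 0 := fun y => by rw [← hζ y, hQ', zero_mul]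
    simp [hP', hQ', hp', hq']
    linarith
  · set I : ℝ := ∑ y, (p y - q y) ^ 2 / (p y + q y) - (P - Q) ^ 2 / (P + Q) with hI
    have hbne : P + Q ≠ 0 := ne_of_gt hb
    -- the increment as a sum of squares
    have hIeq : I = ∑ y, (2 * P * Q / (P + Q) * (ξ y - ζ y)) ^ 2 / (p y + q y) := by
      have hy : ∀ y, (2 * P * Q / (P + Q) * (ξ y - ζ y)) ^ 2 / (p y + q y) =
          (p y - q y) ^ 2 / (p y + q y) - 2 * (P - Q) / (P + Q) * (p y - q y) +
            ((P - Q) / (P + Q)) ^ 2 * (p y + q y) := by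
        intro y
        have hw : 2 * P * Q / (P + Q) * (ξ y - ζ y) =
            (p y - q y) - (p y + q y) * ((P - Q) / (P + Q)) := by
          rw [← hξ y, ← hζ y]
          field_simp
          ring
        rw [hw]
        rcases eq_or_ne (p y + q y) 0 with h0 | h0
        · have hp0 : p y = 0 := by linarith [hp y, hq y]
          have hq0 : q y = 0 := by linarith [hp y, hq y]
          simp [hp0, hq0]
        · field_simp
          ring
      simp only [hy]
      rw [sum_add_distrib, sum_sub_distrib, ← mul_sum, ← mul_sum, ← hsum, sum_sub_distrib, ← hP, ← hQ,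
        hI]
      field_simp
      ring
    have hI0 : 0 ≤ I := by
      rw [hIeq]
      apply sum_nonneg
      intro y _
      exact div_nonneg (sq_nonneg _) (add_nonneg (hp y) (hq y))
    by_cases hc1 : Q < P / (4 * D)
    · have hD0 : 0 < D := by linarith
      have h3 : P - tP < P / 2 := by
        have h4 : 1 / (2 * D) * (P - tP) < P / (4 * D) := lt_of_le_of_lt h1 hc1
        have h5 : (P - tP) / (2 * D) < (P / 2) / (2 * D) := by
          have e1 : 1 / (2 * D) * (P - tP) = (P - tP) / (2 * D) := by ring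
          have e2 : (P / 2) / (2 * D) = P / (4 * D) := by field_simp; norm_num
          rw [e2, ← e1]; exact h4
        exact (div_lt_div_iff_of_pos_right (by positivity)).mp h5
      have h6 : Q ≤ P := by
        have : P / (4 * D) ≤ P := by
          apply div_le_self hP0; linarith
        linarith
      have h7 : (P + Q) * n1 ^ 2 ≤ (4 * tP) * 4 := by
        apply mul_le_mul (by linarith) hnsq (sq_nonneg _) (by linarith)
      have h8 : 0 ≤ 64 * D ^ 2 * I := by positivity
      linarith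
    · by_cases hc2 : P < Q / (4 * D)
      · have hD0 : 0 < D := by linarith
        have h3 : Q - tQ < Q / 2 := by
          have h4 : 1 / (2 * D) * (Q - tQ) < Q / (4 * D) := lt_of_le_of_lt h2 hc2
          have h5 : (Q - tQ) / (2 * D) < (Q / 2) / (2 * D) := by
            have e1 : 1 / (2 * D) * (Q - tQ) = (Q - tQ) / (2 * D) := by ring
            have e2 : (Q / 2) / (2 * D) = Q / (4 * D) := by field_simp; norm_num
            rw [e2, ← e1]; exact h4
          exact (div_lt_div_iff_of_pos_right (by positivity)).mp h5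
        have h6 : P ≤ Q := by
          have : Q / (4 * D) ≤ Q := by
            apply div_le_self hQ0; linarith
          linarith
        have h7 : (P + Q) * n1 ^ 2 ≤ (4 * tQ) * 4 := by
          apply mul_le_mul (by linarith) hnsq (sq_nonneg _) (by linarith)
        have h8 : 0 ≤ 64 * D ^ 2 * I := by positivity
        linarith
      · -- main case
        have hD0 : 0 < D := by linarith
        push Not at hc1 hc2
        rw [div_le_iff₀ (by positivity)] at hc1 hc2
        have hPQ : (P + Q) ^ 2 ≤ 16 * D * (P * Q) := by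
          rcases le_total P Q with h | h
          · have : Q * Q ≤ P * (4 * D) * Q := mul_le_mul_of_nonneg_right hc2 hQ0
            nlinarith
          · have : P * P ≤ Q * (4 * D) * P := mul_le_mul_of_nonneg_right hc1 hP0
            nlinarith
        have ht := titu (fun y => 2 * P * Q / (P + Q) * (ξ y - ζ y)) (fun y => p y + q y)
          (fun y => add_nonneg (hp y) (hq y)) (by
            intro y h0
            have hp0 : p y = 0 := by linarith [hp y, hq y]
            have hq0 : q y = 0 := by linarith [hp y, hq y]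
            have e1 : 2 * P * Q / (P + Q) * (ξ y - ζ y) =
              2 * (Q * (P * ξ y) - P * (Q * ζ y)) / (P + Q) := by ring
            show 2 * P * Q / (P + Q) * (ξ y - ζ y) = 0
            rw [e1, hξ, hζ, hp0, hq0]; simp)
        rw [← hIeq, ← hsum] at ht
        have habs : ∑ y, |2 * P * Q / (P + Q) * (ξ y - ζ y)| = 2 * P * Q / (P + Q) * n1 := by
          rw [hn1, mul_sum]
          apply sum_congr rfl
          intro y _
          rw [abs_mul, abs_of_nonneg (by positivity)]
        rw [habs] at ht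
        -- (2PQ/b)^2 n1^2 ≤ b I, and b^2 ≤ 16 D P Q
        have h9 : ((P + Q) ^ 2 / (8 * D)) / (P + Q) * n1 ≤ 2 * P * Q / (P + Q) * n1 := by
          apply mul_le_mul_of_nonneg_right _ hn0
          apply div_le_div_of_nonneg_right _ hb.le
          rw [div_le_iff₀ (by positivity)]
          linarith
        have h10 : (((P + Q) ^ 2 / (8 * D)) / (P + Q) * n1) ^ 2 ≤ (P + Q) * I :=
          le_trans (pow_le_pow_left₀ (by positivity) h9 2) ht
        have h11 : (((P + Q) ^ 2 / (8 * D)) / (P + Q) * n1) ^ 2 =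
            (P + Q) * ((P + Q) * n1 ^ 2 / (64 * D ^ 2)) := by
          field_simp
          ring
        rw [h11] at h10
        have h12 := le_of_mul_le_mul_left h10 hb
        rw [div_le_iff₀ (by positivity)] at h12
        linarith

/-- symmetric sums over ordered adjacent pairs. -/
theorem sum_adj_swap {V : Type} [Fintype V] (H : SimpleGraph V) (f : V → V → ℝ) :
    ∑ u, ∑ u' ∈ univ.filter (fun u' => H.Adj u u'), f u u' =
      ∑ u, ∑ u' ∈ univ.filter (fun u' => H.Adj u u'), f u' u := by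
  simp only [sum_filter]
  rw [sum_comm]
  apply sum_congr rfl
  intro u _
  apply sum_congr rfl
  intro u' _
  simp only [H.adj_comm u' u]

theorem sum_adj_const_le {V : Type} [Fintype V] (H : SimpleGraph V) (D : ℕ) (hdeg : DegLE H D)
    (f : V → ℝ) (hf : ∀ u, 0 ≤ f u) :
    ∑ u, ∑ _u' ∈ univ.filter (fun u' => H.Adj u u'), f u ≤ D * ∑ u, f u := by
  rw [mul_sum]
  apply sum_le_sum
  intro u _
  rw [sum_const, nsmul_eq_mul]
  apply mul_le_mul_of_nonneg_right _ (hf u)
  exact_mod_cast hdeg u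

/-- the potential. -/
noncomputable def Phi {V : Type} [Fintype V] (H : SimpleGraph V) (a : V → ℝ) : ℝ :=
  ∑ u, ∑ u' ∈ univ.filter (fun u' => H.Adj u u'), (a u - a u') ^ 2 / (a u + a u')

theorem Phi_nonneg {V : Type} [Fintype V] (H : SimpleGraph V) (a : V → ℝ) (ha : ∀ u, 0 ≤ a u) :
    0 ≤ Phi H a := by
  apply sum_nonneg; intro u _
  apply sum_nonneg; intro u' _
  exact div_nonneg (sq_nonneg _) (add_nonneg (ha u) (ha u'))

theorem Phi_le {V : Type} [Fintype V] (H : SimpleGraph V) (D : ℕ) (hdeg : DegLE H D) (a : V → ℝ)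
    (ha : ∀ u, 0 ≤ a u) : Phi H a ≤ 2 * D * ∑ u, a u := by
  have h1 : Phi H a ≤ ∑ u, ∑ u' ∈ univ.filter (fun u' => H.Adj u u'), (a u + a u') := by
    apply sum_le_sum; intro u _
    apply sum_le_sum; intro u' _
    have h0 := add_nonneg (ha u) (ha u')
    rcases eq_or_lt_of_le h0 with hb | hb
    · rw [← hb]; simp
    · rw [div_le_iff₀ hb]
      nlinarith [ha u, ha u', mul_nonneg (ha u) (ha u')]
  have h2 : ∑ u, ∑ u' ∈ univ.filter (fun u' => H.Adj u u'), (a u + a u') =
      2 * ∑ u, ∑ _u' ∈ univ.filter (fun u' => H.Adj u u'), a u := by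
    simp only [sum_add_distrib]
    rw [sum_adj_swap H (fun _ u' => a u')]
    ring
  have h3 := sum_adj_const_le H D hdeg a ha
  rw [h2] at h1
  linarith

/-- One history: the weighted quadratic variation is bounded by the increment of the potential. -/
theorem step_ineq {V : Type} [Fintype V] (H : SimpleGraph V) (D : ℕ) (hD : 1 ≤ D)
    (hdeg : DegLE H D) (b : V → ℝ) (c : V → V → ℝ) (t : V → ℝ)
    (hb : ∀ u, b u = ∑ y, c y u) (hc : ∀ y u, 0 ≤ c y u) (ht : ∀ u, 0 ≤ t u)
    (hquasi : ∀ u u', H.Adj u u' → (1 / (2 * (D : ℝ))) * (b u - t u) ≤ b u') :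
    ∑ u, b u * var2 H (fun u y => if b u = 0 then (if y = u then (1 : ℝ) else 0)
      else c y u / b u) u ≤
      32 * (D : ℝ) ^ 2 * (∑ y, Phi H (c y) - Phi H b) + 16 * D * ∑ u, t u := by
  set ξ : V → V → ℝ := fun u y => if b u = 0 then (if y = u then (1 : ℝ) else 0)
      else c y u / b u with hξ
  have hb0 : ∀ u, 0 ≤ b u := fun u => by rw [hb]; exact sum_nonneg fun y _ => hc y u
  have hξ0 : ∀ u y, 0 ≤ ξ u y := by
    intro u y
    simp only [hξ]
    split_ifs
    · norm_num
    · exact le_refl _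
    · exact div_nonneg (hc y u) (hb0 u)
  have hξ1 : ∀ u, ∑ y, ξ u y = 1 := by
    intro u
    simp only [hξ]
    split_ifs with h
    · simp
    · rw [← sum_div, ← hb, div_self h]
  have hξm : ∀ u y, b u * ξ u y = c y u := by
    intro u y
    simp only [hξ]
    split_ifs with h h'
    · have := (sum_eq_zero_iff_of_nonneg (fun y _ => hc y u)).mp ((hb u).symm.trans h) y (mem_univ _)
      rw [h, this]; simp
    · have := (sum_eq_zero_iff_of_nonneg (fun y _ => hc y u)).mp ((hb u).symm.trans h) y (mem_univ _)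
      rw [this]; simp
    · field_simp
  have hedge : ∀ u u', H.Adj u u' → (b u + b u') * (l1 ξ u u') ^ 2 ≤
      64 * (D : ℝ) ^ 2 * (∑ y, (c y u - c y u') ^ 2 / (c y u + c y u') -
        (b u - b u') ^ 2 / (b u + b u')) + 16 * (t u + t u') := by
    intro u u' hadj
    exact edge_ineq (D : ℝ) (by exact_mod_cast hD) (fun y => c y u) (fun y => c y u') (ξ u) (ξ u')
      (b u) (b u') (t u) (t u') (fun y => hc y u) (fun y => hc y u') (hb u) (hb u') (hξ0 u) (hξ0 u')
      (hξ1 u) (hξ1 u') (hξm u) (hξm u') (ht u) (ht u') (hquasi u u' hadj) (hquasi u' u hadj.symm)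
  have hl1 : ∀ u u', l1 ξ u u' = l1 ξ u' u := by
    intro u u'
    unfold l1
    apply sum_congr rfl; intro z _
    rw [abs_sub_comm]
  have hlhs : ∑ u, b u * var2 H ξ u =
      1 / 2 * ∑ u, ∑ u' ∈ univ.filter (fun u' => H.Adj u u'), (b u + b u') * (l1 ξ u u') ^ 2 := by
    have e1 : ∑ u, b u * var2 H ξ u =
        ∑ u, ∑ u' ∈ univ.filter (fun u' => H.Adj u u'), b u * (l1 ξ u u') ^ 2 := by
      apply sum_congr rfl; intro u _
      rw [var2, mul_sum]
    have e2 : ∑ u, ∑ u' ∈ univ.filter (fun u' => H.Adj u u'), b u' * (l1 ξ u u') ^ 2 =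
        ∑ u, ∑ u' ∈ univ.filter (fun u' => H.Adj u u'), b u * (l1 ξ u u') ^ 2 := by
      rw [sum_adj_swap H (fun u u' => b u' * (l1 ξ u u') ^ 2)]
      apply sum_congr rfl; intro u _
      apply sum_congr rfl; intro u' _
      rw [hl1]
    simp only [add_mul, sum_add_distrib]
    rw [e1, e2]; ring
  rw [hlhs]
  have hsum : ∑ u, ∑ u' ∈ univ.filter (fun u' => H.Adj u u'), (b u + b u') * (l1 ξ u u') ^ 2 ≤
      ∑ u, ∑ u' ∈ univ.filter (fun u' => H.Adj u u'),
        (64 * (D : ℝ) ^ 2 * (∑ y, (c y u - c y u') ^ 2 / (c y u + c y u') -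
        (b u - b u') ^ 2 / (b u + b u')) + 16 * (t u + t u')) := by
    apply sum_le_sum; intro u _
    apply sum_le_sum; intro u' hu'
    exact hedge u u' (mem_filter.mp hu').2
  have hrhs : ∑ u, ∑ u' ∈ univ.filter (fun u' => H.Adj u u'),
        (64 * (D : ℝ) ^ 2 * (∑ y, (c y u - c y u') ^ 2 / (c y u + c y u') -
        (b u - b u') ^ 2 / (b u + b u')) + 16 * (t u + t u')) =
      64 * (D : ℝ) ^ 2 * (∑ y, Phi H (c y) - Phi H b) +
        32 * ∑ u, ∑ _u' ∈ univ.filter (fun u' => H.Adj u u'), t u := by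
    have e1 : ∑ y, Phi H (c y) = ∑ u, ∑ u' ∈ univ.filter (fun u' => H.Adj u u'),
        ∑ y, (c y u - c y u') ^ 2 / (c y u + c y u') := by
      unfold Phi
      rw [sum_comm]
      apply sum_congr rfl; intro u _
      rw [sum_comm]
    have e2 : ∑ u, ∑ u' ∈ univ.filter (fun u' => H.Adj u u'), (t u + t u') =
        2 * ∑ u, ∑ _u' ∈ univ.filter (fun u' => H.Adj u u'), t u := by
      simp only [sum_add_distrib]
      rw [sum_adj_swap H (fun _ u' => t u')]
      ring
    simp only [sum_add_distrib, ← mul_sum, sum_sub_distrib]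
    simp only [sum_add_distrib] at e2
    rw [e2, e1, Phi]
    ring
  have h3 := sum_adj_const_le H D hdeg t ht
  rw [hrhs] at hsum
  linarith

theorem en : EnStmt := by
  intro D m e hD he V _ H hdeg a t ha ht hcons hquasi hte hone
  have hstep : ∀ j ∈ Ico 1 m, ∑ s ∈ lists V j, ∑ u, a s u *
        var2 H (fun u y => if a s u = 0 then (if y = u then (1 : ℝ) else 0)
          else a (y :: s) u / a s u) u ≤
        32 * (D : ℝ) ^ 2 * (∑ s ∈ lists V (j + 1), Phi H (a s) - ∑ s ∈ lists V j, Phi H (a s)) +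
          16 * D * e := by
    intro j hj
    rw [mem_Ico] at hj
    have h1 : ∀ s ∈ lists V j, ∑ u, a s u *
        var2 H (fun u y => if a s u = 0 then (if y = u then (1 : ℝ) else 0)
          else a (y :: s) u / a s u) u ≤
        32 * (D : ℝ) ^ 2 * (∑ y, Phi H (a (y :: s)) - Phi H (a s)) + 16 * D * ∑ u, t s u := by
      intro s hs
      rw [mem_lists] at hs
      exact step_ineq H D hD hdeg (a s) (fun y => a (y :: s)) (t s)
        (fun u => hcons s u (by omega)) (fun y u => ha _ _) (ht s) (fun u u' h => hquasi s u u' h)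
    refine (sum_le_sum h1).trans ?_
    rw [sum_add_distrib, ← mul_sum, sum_sub_distrib, ← mul_sum,
      ← sum_lists_succ j (fun l => Phi H (a l))]
    have h2 := hte j hj.1 hj.2
    have hD0 : (0 : ℝ) ≤ 16 * D := by positivity
    have h3 := mul_le_mul_of_nonneg_left h2 hD0
    linarith
  refine (sum_le_sum hstep).trans ?_
  rw [sum_add_distrib, ← mul_sum, sum_const, Nat.card_Ico, nsmul_eq_mul]
  rcases Nat.lt_or_ge m 1 with hm | hm
  · have h0 : m = 0 := by omega
    subst h0
    simp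
  · have htel : ∑ j ∈ Ico 1 m, (∑ s ∈ lists V (j + 1), Phi H (a s) - ∑ s ∈ lists V j, Phi H (a s)) =
        ∑ s ∈ lists V m, Phi H (a s) - ∑ s ∈ lists V 1, Phi H (a s) := by
      rw [Finset.sum_Ico_sub (fun j => ∑ s ∈ lists V j, Phi H (a s)) hm]
    rw [htel]
    have h1 : ∑ s ∈ lists V m, Phi H (a s) ≤ 2 * D := by
      calc ∑ s ∈ lists V m, Phi H (a s) ≤ ∑ s ∈ lists V m, 2 * D * ∑ u, a s u :=
            sum_le_sum fun s _ => Phi_le H D hdeg (a s) (ha s)
        _ = 2 * D * ∑ s ∈ lists V m, ∑ u, a s u := by rw [mul_sum]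
        _ ≤ 2 * D * 1 := by
            apply mul_le_mul_of_nonneg_left hone (by positivity)
        _ = 2 * D := by ring
    have h2 : 0 ≤ ∑ s ∈ lists V 1, Phi H (a s) := sum_nonneg fun s _ => Phi_nonneg H (a s) (ha s)
    have h3 : 32 * (D : ℝ) ^ 2 * (∑ s ∈ lists V m, Phi H (a s) - ∑ s ∈ lists V 1, Phi H (a s)) ≤
        32 * (D : ℝ) ^ 2 * (2 * D) := by
      apply mul_le_mul_of_nonneg_left (by linarith) (by positivity)
    have h4 : ((m - 1 : ℕ) : ℝ) * (16 * D * e) ≤ m * (16 * D * e) := by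
      apply mul_le_mul_of_nonneg_right _ (by positivity)
      exact_mod_cast Nat.sub_le m 1
    nlinarith

end H18.ML
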