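import Pool.Agent.H57.ML.Targets

/-!
# Multi-layer Meyniel (MP_6ecee4_co): module MU
-/

namespace H18.ML

open scoped BigOperators
open Finset
open Classical
open H57.ML

theorem rel_suffix {V : Type} (H : SimpleGraph V) (ρ : ℕ → ℕ) (x : V) :
    ∀ (l s : List V), s <:+ l → Rel H ρ l x → Rel H ρ s x := by
  intro l
  induction l with
  | nil =>
    intro s hs _
    have : s = [] := List.suffix_nil.mp hs
    subst this
    trivial
  | cons y l ih =>
    intro s hs h
    rcases List.suffix_cons_iff.mp hs with h' | h'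
    · subst h'; exact h
    · exact ih s h' h.2

/-- `A f s u = ∑_q μ q [s suffix of q.1] f q.2 u`. -/
noncomputable def wt {V : Type} [Fintype V] (m : ℕ) (μ : List V × V → ℝ) (f : V → V → ℝ)
    (s : List V) (u : V) : ℝ :=
  ∑ q ∈ lists V m ×ˢ (univ : Finset V), μ q * (if s <:+ q.1 then f q.2 u else 0)

theorem sum_suffix {V : Type} [Fintype V] (m j : ℕ) (hj : j ≤ m) (l : List V) (hl : l.length = m)
    (g : List V → ℝ) :
    ∑ s ∈ lists V j, (if s <:+ l then g s else 0) = g (l.drop (m - j)) := by
  have h : ∀ s ∈ lists V j, (if s <:+ l then g s else 0) =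
      (if l.drop (m - j) = s then g (l.drop (m - j)) else 0) := by
    intro s hs
    rw [mem_lists] at hs
    have : s <:+ l ↔ l.drop (m - j) = s := by
      rw [List.suffix_iff_eq_drop, hl, hs, eq_comm]
    by_cases h1 : l.drop (m - j) = s
    · rw [if_pos (this.mpr h1), if_pos h1, h1]
    · rw [if_neg (fun h => h1 (this.mp h)), if_neg h1]
  rw [sum_congr rfl h, sum_ite_eq, if_pos]
  rw [mem_lists, List.length_drop, hl]
  omega

theorem sum_wt {V : Type} [Fintype V] (m j : ℕ) (hj : j ≤ m) (μ : List V × V → ℝ)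
    (f : V → V → ℝ) (g : List V → V → ℝ) :
    ∑ s ∈ lists V j, ∑ u, wt m μ f s u * g s u =
      ∑ q ∈ lists V m ×ˢ (univ : Finset V), μ q * ∑ u, f q.2 u * g (q.1.drop (m - j)) u := by
  have h1 : ∀ s, ∑ u, wt m μ f s u * g s u =
      ∑ q ∈ lists V m ×ˢ (univ : Finset V), μ q * (if s <:+ q.1 then ∑ u, f q.2 u * g s u else 0) := by
    intro s
    simp only [wt, sum_mul]
    rw [sum_comm]
    apply sum_congr rfl
    intro q _
    split_ifs with h
    · rw [mul_sum]
      apply sum_congr rfl; intro u _; ring
    · simp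
  simp only [h1]
  rw [sum_comm]
  apply sum_congr rfl
  intro q hq
  rw [mem_product] at hq
  have hl := mem_lists.mp hq.1
  rw [← mul_sum, sum_suffix m j hj q.1 hl (fun s => ∑ u, f q.2 u * g s u)]

theorem wt_cons {V : Type} [Fintype V] (m : ℕ) (μ : List V × V → ℝ) (f : V → V → ℝ)
    (s : List V) (u : V) (hs : s.length < m) :
    wt m μ f s u = ∑ y, wt m μ f (y :: s) u := by
  simp only [wt]
  rw [sum_comm]
  apply sum_congr rfl
  intro q hq
  rw [mem_product] at hq
  have hl := mem_lists.mp hq.1
  rw [← mul_sum]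
  congr 1
  by_cases h : s <:+ q.1
  · rw [if_pos h]
    obtain ⟨pre, hpre⟩ := h
    have hne : pre ≠ [] := by
      rintro rfl
      rw [List.nil_append] at hpre
      rw [hpre] at hs
      omega
    obtain ⟨pre', y0, hp⟩ : ∃ pre' y0, pre = pre' ++ [y0] :=
      ⟨pre.dropLast, pre.getLast hne, (List.dropLast_append_getLast hne).symm⟩
    have hy0 : (y0 :: s) <:+ q.1 := ⟨pre', by rw [← hpre, hp]; simp⟩
    have huniq : ∀ y, (y :: s) <:+ q.1 ↔ y0 = y := by
      intro y
      constructor
      · intro hy
        have e1 := List.suffix_iff_eq_drop.mp hy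
        have e2 := List.suffix_iff_eq_drop.mp hy0
        simp only [List.length_cons] at e1 e2
        have := e2.trans e1.symm
        exact (List.cons.inj this).1
      · rintro rfl; exact hy0
    simp only [huniq]
    simp
  · rw [if_neg h]
    symm
    apply sum_eq_zero
    intro y _
    rw [if_neg]
    intro hy
    exact h ((List.suffix_cons y s).trans hy)

theorem mu (hEn : EnStmt) : MuStmt := by
  intro D m J hD hJ ρ V _ H hdeg Q τ hK μ hμ0 hμ1 hμR
  set a := wt m μ Q with ha
  set t := wt m μ τ with ht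
  have ha0 : ∀ s u, 0 ≤ a s u := by
    intro s u
    apply sum_nonneg; intro q _
    apply mul_nonneg (hμ0 q)
    split_ifs
    · exact hK.nonneg _ _
    · exact le_refl _
  have ht0 : ∀ s u, 0 ≤ t s u := by
    intro s u
    apply sum_nonneg; intro q _
    apply mul_nonneg (hμ0 q)
    split_ifs
    · exact hK.tail_nonneg _ _
    · exact le_refl _
  have hcons : ∀ s u, s.length < m → a s u = ∑ y, a (y :: s) u :=
    fun s u hs => wt_cons m μ Q s u hs
  have hquasi : ∀ s u u', H.Adj u u' → (1 / (2 * (D : ℝ))) * (a s u - t s u) ≤ a s u' := by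
    intro s u u' hadj
    rw [ha, ht]
    simp only [wt]
    rw [← sum_sub_distrib, mul_sum]
    apply sum_le_sum
    intro q _
    rw [← mul_sub, ← mul_assoc, mul_comm (1 / (2 * (D : ℝ))) (μ q), mul_assoc]
    apply mul_le_mul_of_nonneg_left _ (hμ0 q)
    split_ifs
    · exact hK.quasi q.2 u u' hadj
    · simp
  set e : ℝ := (1 / 2) ^ J with he
  have he0 : 0 ≤ e := by positivity
  have hte : ∀ j, 1 ≤ j → j < m → ∑ s ∈ lists V j, ∑ u, t s u ≤ e := by
    intro j _ hj
    have h := sum_wt m j hj.le μ τ (fun _ _ => 1)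
    simp only [mul_one] at h
    rw [ht, h]
    calc ∑ q ∈ lists V m ×ˢ (univ : Finset V), μ q * ∑ u, τ q.2 u
        ≤ ∑ q ∈ lists V m ×ˢ (univ : Finset V), μ q * e :=
          sum_le_sum fun q _ => mul_le_mul_of_nonneg_left (hK.tail_sum q.2) (hμ0 q)
      _ = e := by rw [← sum_mul, hμ1, one_mul]
  have hone : ∑ s ∈ lists V m, ∑ u, a s u ≤ 1 := by
    have h := sum_wt m m le_rfl μ Q (fun _ _ => 1)
    simp only [mul_one, hK.sum_one] at h
    rw [ha, h, hμ1]
  have hE := hEn D m e hD he0 V H hdeg a t ha0 ht0 hcons hquasi hte hone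
  -- the admissible family
  let ξ : List V → V → V → ℝ := fun s u y =>
    if s.length < m ∧ a s u ≠ 0 then a (y :: s) u / a s u else if y = u then 1 else 0
  refine ⟨ξ, ⟨?_, ?_⟩, ?_⟩
  · intro s
    constructor
    · intro u z
      simp only [ξ]
      split_ifs
      · exact div_nonneg (ha0 _ _) (ha0 _ _)
      · norm_num
      · exact le_refl _
    · intro u
      simp only [ξ]
      split_ifs with h
      · rw [← sum_div, ← hcons s u h.1, div_self h.2]
      · simp
  · intro s u z hs hz
    simp only [ξ] at hz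
    split_ifs at hz with h h'
    · have hne : a (z :: s) u ≠ 0 := by
        intro h0; rw [h0, zero_div] at hz; exact hz rfl
      rw [ha] at hne
      obtain ⟨q, hq, hqne⟩ := exists_ne_zero_of_sum_ne_zero hne
      have hμq : μ q ≠ 0 := fun h0 => hqne (by rw [h0, zero_mul])
      have hif := right_ne_zero_of_mul hqne
      by_cases hsuf : (z :: s) <:+ q.1
      · rw [if_pos hsuf] at hif
        have hrel := rel_suffix H ρ q.2 q.1 (z :: s) hsuf (hμR q hμq)
        have h1 : Within H (ρ (s.length + 1)) z q.2 := hrel.1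
        have h2 := hK.range q.2 u hif
        exact (h1.trans h2).symm
      · rw [if_neg hsuf] at hif
        exact absurd rfl hif
    · subst h'
      exact Within.refl _ _
    · exact absurd rfl hz
  · have hterm : ∑ q ∈ lists V m ×ˢ (univ : Finset V),
        μ q * ∑ j ∈ Ico 1 m, En H Q (ξ (q.1.drop (m - j))) q.2 =
        ∑ j ∈ Ico 1 m, ∑ s ∈ lists V j, ∑ u, a s u *
        var2 H (fun u y => if a s u = 0 then (if y = u then (1 : ℝ) else 0)
          else a (y :: s) u / a s u) u := by
      simp only [mul_sum]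
      rw [sum_comm]
      apply sum_congr rfl
      intro j hj
      rw [mem_Ico] at hj
      have h1 := sum_wt m j hj.2.le μ Q (fun s u => var2 H (ξ s) u)
      have h2 : ∑ s ∈ lists V j, ∑ u, a s u *
        var2 H (fun u y => if a s u = 0 then (if y = u then (1 : ℝ) else 0)
          else a (y :: s) u / a s u) u = ∑ s ∈ lists V j, ∑ u, a s u * var2 H (ξ s) u := by
        apply sum_congr rfl
        intro s hs
        rw [mem_lists] at hs
        have hfun : (fun u y => if a s u = 0 then (if y = u then (1 : ℝ) else 0)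
          else a (y :: s) u / a s u) = ξ s := by
          funext u y
          simp only [ξ]
          by_cases h0 : a s u = 0
          · simp [h0]
          · rw [if_neg h0, if_pos ⟨by omega, h0⟩]
        rw [hfun]
      rw [h2, ha, h1]
      apply sum_congr rfl
      intro q _
      rfl
    rw [hterm]
    refine hE.trans ?_
    have h16 : 16 * (D : ℝ) * m * e ≤ 1 := by
      have h2 : (16 * (D : ℝ) * m) ≤ 2 ^ J := by exact_mod_cast hJ
      have h3 : e = 1 / 2 ^ J := by rw [he]; rw [div_pow, one_pow]
      rw [h3, mul_one_div, div_le_one (by positivity)]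
      exact h2
    linarith

end H18.ML
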